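import Pool.Agent.Lib.MP_258d0c_pr.Main

open MeasureTheory ProbabilityTheory Pool.Agent.Lib.MP_258d0c_pr

namespace Pool.Agent.Lib.MP_258d0c_pr.Variants.Variance

/-- Exact order of the variance of the facet number of block-beta random polytopes. -/
theorem result (m : ℕ) (hm : 1 ≤ m) (d : Fin m → ℕ) (hd : ∀ i, 1 ≤ d i) (β : Fin m → ℝ)
    (hβ : ∀ i, 0 ≤ β i) :
    IsProbabilityMeasure (blockBeta d β) ∧
    (∀ n : ℕ, ∑ i, d i + 1 ≤ n →
      MemLp (fun X : Fin n → Amb d => facets X) 2 (sample d β n)) ∧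
    (∑ i, d i = 1 → ∀ n : ℕ, 2 ≤ n →
      variance (fun X : Fin n → Amb d => facets X) (sample d β n) = 0) ∧
    (2 ≤ ∑ i, d i → ∃ c C : ℝ, 0 < c ∧ ∃ n0 : ℕ, ∀ n : ℕ, n0 ≤ n →
      c * order d β n ≤ variance (fun X : Fin n → Amb d => facets X) (sample d β n) ∧
      variance (fun X : Fin n → Amb d => facets X) (sample d β n) ≤ C * order d β n) :=
  ⟨blockBeta_prob d hβ, fun _ hn => memLp_facets hm hd hβ hn,
    fun h1 _ hn => var_one hm hd hβ h1 hn, var_two_sided hm hd hβ⟩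

end Pool.Agent.Lib.MP_258d0c_pr.Variants.Variance
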